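import Pool.Agent.Helper8.BG.NumDefs

/-!
# BG, module NUM: kernel evaluation, pair BB, I
-/

set_option autoImplicit false

namespace Pool.Agent.Helper8.BG

open Pool.Agent.Helper27.BG

theorem eqIBB : Nat.beq (II (pp (tb GB 15) (tb GB 15)) (pp (tb HB 17) (tb HB 17))) cIBB = true := by
  decide +kernel

end Pool.Agent.Helper8.BG
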