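import Pool.Agent.Helper8.BG.NumDefs

/-!
# BG, module NUM: kernel evaluation, pair BB, O
-/

set_option autoImplicit false

namespace Pool.Agent.Helper8.BG

open Pool.Agent.Helper27.BG

theorem eqOBB : (Nat.beq (OO omP KB KB (pp (tb GB 15) (tb GB 15))) cPBB &&
    Nat.beq (OO omN KB KB (pp (tb GB 15) (tb GB 15))) cNBB) = true := by
  decide +kernel

end Pool.Agent.Helper8.BG
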