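import Pool.Agent.Helper8.BG.Bridge
import Pool.Agent.Helper8.BG.EvIAA
import Pool.Agent.Helper8.BG.EvIAB
import Pool.Agent.Helper8.BG.EvIBB
import Pool.Agent.Helper8.BG.EvOAA
import Pool.Agent.Helper8.BG.EvOAB
import Pool.Agent.Helper8.BG.EvOBB

/-!
# BG, module NUM: the numerical inequality
-/

set_option autoImplicit false

noncomputable section

namespace Pool.Agent.Helper8.BG

open Finset Polynomial
open Pool.Agent.Helper27.BG (gA gB hA hB Pg QQ CC kap PQ eI GA GB HA HB Dn Dt Inum omI)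
open Pool.Agent.Helper82.BG (w0 w1 w2 e49 W0L W1L W2L E49L w0_eq w1_eq w2_eq e49_eq)

theorem CC_v (g g' : ℕ → ℕ) (t : ℕ) :
    Pool.Agent.Helper27.BG.CC g g' t =
      ∑ n ∈ range (t + 1), (Pg g g' ^ 49).coeff n * (v3 (t - n) : ℤ) := by
  unfold Pool.Agent.Helper27.BG.CC
  apply Finset.sum_congr rfl
  intro n _
  rw [e49_eq]
  rfl

theorem Q0_v (g g' : ℕ → ℕ) (t : ℕ) : QQ g g' 0 t - 2 * QQ g g' 1 t + QQ g g' 2 t =
    ∑ n ∈ range (t + 1), (Pg g g' ^ 48).coeff n * (v0 (t - n) : ℤ) := by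
  unfold QQ
  rw [Finset.mul_sum, ← Finset.sum_sub_distrib, ← Finset.sum_add_distrib]
  apply Finset.sum_congr rfl
  intro n _
  have h := w0_eq (t - n)
  have h2 : (v0 (t - n) : ℤ) = (w0 (t - n) : ℤ) := rfl
  rw [h2, ← h]
  ring

theorem Q1_v (g g' : ℕ → ℕ) (t : ℕ) : QQ g g' 1 t - QQ g g' 2 t =
    ∑ n ∈ range (t + 1), (Pg g g' ^ 48).coeff n * (v1 (t - n) : ℤ) := by
  unfold QQ
  rw [← Finset.sum_sub_distrib]
  apply Finset.sum_congr rfl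
  intro n _
  have h := w1_eq (t - n)
  have h2 : (v1 (t - n) : ℤ) = (w1 (t - n) : ℤ) := rfl
  rw [h2, ← h]
  ring

theorem Q2_v (g g' : ℕ → ℕ) (t : ℕ) : QQ g g' 2 t =
    ∑ n ∈ range (t + 1), (Pg g g' ^ 48).coeff n * (v2 (t - n) : ℤ) := by
  unfold QQ
  apply Finset.sum_congr rfl
  intro n _
  have h := w2_eq (t - n)
  have h2 : (v2 (t - n) : ℤ) = (w2 (t - n) : ℤ) := rfl
  rw [h2, ← h]

theorem pp_le (g g' : ℕ → ℕ) (a b : ℕ) (hg : ∀ i, g i ≤ 2 ^ a) (hg' : ∀ i, g' i ≤ 2 ^ b) (i : ℕ) :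
    pp g g' i ≤ 2 ^ (a + b) := by
  rw [pow_add]
  exact Nat.mul_le_mul (hg i) (hg' i)

theorem sumI (g g' h h' : ℕ → ℕ) (hg : ∀ i, g i ≤ 2 ^ 15) (hg' : ∀ i, g' i ≤ 2 ^ 15)
    (hh : ∀ i, h i ≤ 2 ^ 17) (hh' : ∀ i, h' i ≤ 2 ^ 17) :
    ∑ t ∈ range 1055, ((h t : ℤ) * h' t) * Pool.Agent.Helper27.BG.CC g g' t = (II (pp g g') (pp h h') : ℤ) := by
  rw [← II_eq (pp g g') (pp h h') (pp_le g g' 15 15 hg hg') (pp_le h h' 17 17 hh hh'),
    ← fun_coeff g g' v3 (pp h h') 49]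
  apply Finset.sum_congr rfl
  intro t _
  rw [CC_v]
  congr 1

theorem sumO (om g g' h h' : ℕ → ℕ) (hom : ∀ t, om t ≤ 2 ^ 22) (hg : ∀ i, g i ≤ 2 ^ 15)
    (hg' : ∀ i, g' i ≤ 2 ^ 15) (hh : ∀ i, h i ≤ 2 ^ 17) (hh' : ∀ i, h' i ≤ 2 ^ 17)
    (hz : ∀ s, 1055 ≤ s → h s = 0) (hz' : ∀ s, 1055 ≤ s → h' s = 0) :
    ∑ t ∈ range 1055, (om t : ℤ) * Dn g h g' h' t = (OO om (KK g h) (KK g' h') (pp g g') : ℤ) := by
  rw [← OO_eq om (KK g h) (KK g' h') (pp g g') (pp_le g g' 15 15 hg hg') hom, Nat.cast_add,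
    Nat.cast_add, ← fun_coeff g g' v0 (wt0 om (KK g h) (KK g' h')) 48,
    ← fun_coeff g g' v1 (wt1 om (KK g h) (KK g' h')) 48,
    ← fun_coeff g g' v2 (wt2 om (KK g h) (KK g' h')) 48, ← Finset.sum_add_distrib,
    ← Finset.sum_add_distrib]
  apply Finset.sum_congr rfl
  intro t _
  rw [← Q0_v, ← Q1_v, ← Q2_v]
  unfold Dn
  rw [← kd_eq g h hg hh hz t, ← kd_eq g h hg hh hz (t + 1), ← kd_eq g' h' hg' hh' hz' t,
    ← kd_eq g' h' hg' hh' hz' (t + 1)]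
  have e0 : (wt0 om (KK g h) (KK g' h') t : ℤ) =
      om t * ((kd (KK g h) t : ℤ) * (kd (KK g' h') t : ℤ)) := by
    rw [← Nat.cast_mul, ← Nat.cast_mul]
    rfl
  have e1 : (wt1 om (KK g h) (KK g' h') t : ℤ) =
      om t * ((kd (KK g h) t : ℤ) * (kd (KK g' h') (t + 1) : ℤ) +
        (kd (KK g h) (t + 1) : ℤ) * (kd (KK g' h') t : ℤ)) := by
    rw [← Nat.cast_mul, ← Nat.cast_mul, ← Nat.cast_add, ← Nat.cast_mul]
    rfl
  have e2 : (wt2 om (KK g h) (KK g' h') t : ℤ) =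
      om t * ((kd (KK g h) (t + 1) : ℤ) * (kd (KK g' h') (t + 1) : ℤ)) := by
    rw [← Nat.cast_mul, ← Nat.cast_mul]
    rfl
  rw [e0, e1, e2]
  ring

theorem cond_ble (a t x y : ℕ) : cond (Nat.ble a t) x y = if t < a then y else x := by
  split_ifs with h
  · have : Nat.ble a t = false := by
      rw [Bool.eq_false_iff]
      intro hh
      have := Nat.le_of_ble_eq_true hh
      omega
    rw [this]
    rfl
  · have : Nat.ble a t = true := Nat.ble_eq_true_of_le (by omega)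
    rw [this]
    rfl

theorem omP_le (t : ℕ) : omP t ≤ 2 ^ 22 := by
  unfold omP
  simp only [cond_ble]
  split_ifs <;> norm_num

theorem omN_le (t : ℕ) : omN t ≤ 2 ^ 22 := by
  unfold omN
  simp only [cond_ble]
  split_ifs <;> norm_num

theorem om_eq (t : ℕ) : omI t = (omP t : ℤ) - (omN t : ℤ) := by
  unfold omI omP omN
  simp only [cond_ble]
  split_ifs <;> first | rfl | (norm_num; done) | (exfalso; omega)

theorem gA_tb : gA = tb GA 15 := rfl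
theorem gB_tb : gB = tb GB 15 := rfl
theorem hA_tb : hA = tb HA 17 := rfl
theorem hB_tb : hB = tb HB 17 := rfl

theorem HA_lt : HA < 2 ^ (17 * 1055) := by decide +kernel
theorem HB_lt : HB < 2 ^ (17 * 1055) := by decide +kernel

theorem hA_z (s : ℕ) (h : 1055 ≤ s) : hA s = 0 := by
  rw [hA_tb]
  exact tb_zero _ _ _ (HA_lt.trans_le (Nat.pow_le_pow_right (by norm_num) (by omega)))

theorem hB_z (s : ℕ) (h : 1055 ≤ s) : hB s = 0 := by
  rw [hB_tb]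
  exact tb_zero _ _ _ (HB_lt.trans_le (Nat.pow_le_pow_right (by norm_num) (by omega)))

theorem gA_le (i : ℕ) : gA i ≤ 2 ^ 15 := (tb_lt GA 15 i).le
theorem gB_le (i : ℕ) : gB i ≤ 2 ^ 15 := (tb_lt GB 15 i).le
theorem hA_le (i : ℕ) : hA i ≤ 2 ^ 17 := (tb_lt HA 17 i).le
theorem hB_le (i : ℕ) : hB i ≤ 2 ^ 17 := (tb_lt HB 17 i).le

theorem IAA : II (pp gA gA) (pp hA hA) = cIAA := by
  rw [gA_tb, hA_tb]
  exact Nat.eq_of_beq_eq_true eqIAA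

theorem IAB : II (pp gA gB) (pp hA hB) = cIAB := by
  rw [gA_tb, hA_tb, gB_tb, hB_tb]
  exact Nat.eq_of_beq_eq_true eqIAB

theorem IBB : II (pp gB gB) (pp hB hB) = cIBB := by
  rw [gB_tb, hB_tb]
  exact Nat.eq_of_beq_eq_true eqIBB

theorem OAA : OO omP (KK gA hA) (KK gA hA) (pp gA gA) = cPAA ∧
    OO omN (KK gA hA) (KK gA hA) (pp gA gA) = cNAA := by
  rw [gA_tb, hA_tb]
  have h := eqOAA
  rw [Bool.and_eq_true_iff] at h
  unfold KA at h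
  exact ⟨Nat.eq_of_beq_eq_true h.1, Nat.eq_of_beq_eq_true h.2⟩

theorem OAB : OO omP (KK gA hA) (KK gB hB) (pp gA gB) = cPAB ∧
    OO omN (KK gA hA) (KK gB hB) (pp gA gB) = cNAB := by
  rw [gA_tb, hA_tb, gB_tb, hB_tb]
  have h := eqOAB
  rw [Bool.and_eq_true_iff] at h
  unfold KA KB at h
  exact ⟨Nat.eq_of_beq_eq_true h.1, Nat.eq_of_beq_eq_true h.2⟩

theorem OBB : OO omP (KK gB hB) (KK gB hB) (pp gB gB) = cPBB ∧
    OO omN (KK gB hB) (KK gB hB) (pp gB gB) = cNBB := by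
  rw [gB_tb, hB_tb]
  have h := eqOBB
  rw [Bool.and_eq_true_iff] at h
  unfold KB at h
  exact ⟨Nat.eq_of_beq_eq_true h.1, Nat.eq_of_beq_eq_true h.2⟩

theorem Inum_eq : Inum = (cIAA : ℤ) - 2 * (cIAB : ℤ) + (cIBB : ℤ) := by
  rw [← IAA, ← IAB, ← IBB, ← sumI gA gA hA hA gA_le gA_le hA_le hA_le,
    ← sumI gA gB hA hB gA_le gB_le hA_le hB_le, ← sumI gB gB hB hB gB_le gB_le hB_le hB_le,
    Finset.mul_sum, ← Finset.sum_sub_distrib, ← Finset.sum_add_distrib]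
  unfold Inum
  apply Finset.sum_congr rfl
  intro t _
  ring

theorem DP (om : ℕ → ℕ) (hom : ∀ t, om t ≤ 2 ^ 22) :
    ∑ t ∈ range 1055, (om t : ℤ) * Dt t =
      (OO om (KK gA hA) (KK gA hA) (pp gA gA) : ℤ) - 2 * (OO om (KK gA hA) (KK gB hB) (pp gA gB) : ℤ) +
        (OO om (KK gB hB) (KK gB hB) (pp gB gB) : ℤ) := by
  rw [← sumO om gA gA hA hA hom gA_le gA_le hA_le hA_le hA_z hA_z,
    ← sumO om gA gB hA hB hom gA_le gB_le hA_le hB_le hA_z hB_z,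
    ← sumO om gB gB hB hB hom gB_le gB_le hB_le hB_le hB_z hB_z,
    Finset.mul_sum, ← Finset.sum_sub_distrib, ← Finset.sum_add_distrib]
  apply Finset.sum_congr rfl
  intro t _
  unfold Dt
  ring

theorem Onum_eq : ∑ t ∈ range 1055, omI t * Dt t =
    ((cPAA : ℤ) - 2 * (cPAB : ℤ) + (cPBB : ℤ)) - ((cNAA : ℤ) - 2 * (cNAB : ℤ) + (cNBB : ℤ)) := by
  rw [← OAA.1, ← OAA.2, ← OAB.1, ← OAB.2, ← OBB.1, ← OBB.2, ← DP omP omP_le, ← DP omN omN_le,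
    ← Finset.sum_sub_distrib]
  apply Finset.sum_congr rfl
  intro t _
  rw [om_eq]
  ring

theorem fin1 : 0 < (cIAA : ℤ) - 2 * (cIAB : ℤ) + (cIBB : ℤ) := by decide +kernel

theorem fin2 : 50 * 1000 * 10002 * 57960 * ((cIAA : ℤ) - 2 * (cIAB : ℤ) + (cIBB : ℤ)) <
    49 * 2499 * (((cPAA : ℤ) - 2 * (cPAB : ℤ) + (cPBB : ℤ)) -
      ((cNAA : ℤ) - 2 * (cNAB : ℤ) + (cNBB : ℤ))) := by decide +kernel

end Pool.Agent.Helper8.BG

namespace Pool.Agent.Helper27.BG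

/-- The numerical inequality. -/
theorem hNum : StNum := by
  unfold StNum
  rw [Pool.Agent.Helper8.BG.Onum_eq, Pool.Agent.Helper8.BG.Inum_eq]
  exact ⟨Pool.Agent.Helper8.BG.fin1, Pool.Agent.Helper8.BG.fin2⟩

end Pool.Agent.Helper27.BG
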