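import Pool.Agent.Helper8.BG.NumDefs

/-!
# BG, module NUM: bridge from polynomials to the evaluation functions
-/

set_option autoImplicit false

noncomputable section

namespace Pool.Agent.Helper8.BG

open Finset Polynomial
open Pool.Agent.Helper27.BG (gA gB hA hB Pg QQ CC kap PQ eI GA GB HA HB Dn Dt Inum omI)
open Pool.Agent.Helper82.BG (w0 w1 w2 e49 W0L W1L W2L E49L)

theorem tb_lt (N k i : ℕ) : tb N k i < 2 ^ k := Nat.mod_lt _ (Nat.two_pow_pos k)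

theorem tb_zero (N k i : ℕ) (h : N < 2 ^ (k * i)) : tb N k i = 0 := by
  have h1 : tb N k i = N / 2 ^ (k * i) % 2 ^ k := rfl
  rw [h1, Nat.div_eq_of_lt h, Nat.zero_mod]

/-- The packed correlation. -/
theorem kd_eq (g h : ℕ → ℕ) (hg : ∀ i, g i ≤ 2 ^ 15) (hh : ∀ i, h i ≤ 2 ^ 17)
    (hz : ∀ s, 1055 ≤ s → h s = 0) (t : ℕ) : (kd (KK g h) t : ℤ) = kap g h t := by
  have h1 : kd (KK g h) t = (Pp h * Pp (rv g)).coeff (1054 + t) := by
    rw [kron KC]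
    · rw [Polynomial.eval_mul, Pp_eval, Pp_eval]
      rfl
    · rw [Polynomial.eval_mul]
      refine lt_of_le_of_lt (Nat.mul_le_mul (Pp_eval_one h _ hh) (Pp_eval_one (rv g) _ fun i => hg _)) ?_
      decide +kernel
  rw [h1, coeff_rv, kap, Nat.cast_sum]
  apply Finset.sum_congr rfl
  intro i _
  have hk : (Pp h).coeff (i + t) = h (t + i) := by
    rw [add_comm t i]
    rcases lt_or_ge (i + t) 1055 with h2 | h2
    · rw [Pp_coeff h h2]
    · rw [Pp_coeff_ge h h2, hz _ h2]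
  rw [hk, Nat.cast_mul]

theorem Pg_eq (g g' : ℕ → ℕ) : Pg g g' = (Pp (pp g g')).map (Nat.castRingHom ℤ) := by
  rw [Pg, Pp, Polynomial.map_sum]
  refine Finset.sum_congr rfl fun i _ => ?_
  simp [pp]

/-- A linear functional of a convolution is one coefficient. -/
theorem fun_coeff (g g' e F : ℕ → ℕ) (k : ℕ) :
    ∑ t ∈ range 1055, (F t : ℤ) * ∑ n ∈ range (t + 1), (Pg g g' ^ k).coeff n * (e (t - n) : ℤ) =
      (((Pp (pp g g') ^ k * Pp e) * Pp (rv F)).coeff 1054 : ℕ) := by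
  have h0 := coeff_rv (Pp (pp g g') ^ k * Pp e) F 0
  rw [add_zero] at h0
  rw [h0, Nat.cast_sum]
  refine Finset.sum_congr rfl fun t ht => ?_
  rw [Nat.cast_mul]
  congr 1
  rw [add_zero, Polynomial.coeff_mul, Finset.Nat.sum_antidiagonal_eq_sum_range_succ_mk]
  push_cast
  refine Finset.sum_congr rfl fun n hn => ?_
  have h1 := Finset.mem_range.1 ht
  have h2 := Finset.mem_range.1 hn
  rw [Pp_coeff e (by omega), Pg_eq, ← Polynomial.map_pow, Polynomial.coeff_map]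
  rfl

theorem XBb1 : (1055 * 2 ^ 30) ^ 49 * (1055 * 2 ^ 256) * (1055 * 2 ^ 34) < XB := by decide +kernel

theorem XBb2 : (1055 * 2 ^ 30) ^ 48 * ((1055 * 2 ^ 256) * (1055 * 2 ^ 150) +
    (1055 * 2 ^ 256) * (1055 * 2 ^ 151) + (1055 * 2 ^ 256) * (1055 * 2 ^ 150)) < XB := by
  decide +kernel

theorem eval_pow_le (a : ℕ → ℕ) (ha : ∀ i, a i ≤ 2 ^ 30) (k : ℕ) :
    ((Pp a) ^ k).eval 1 ≤ (1055 * 2 ^ 30) ^ k := by
  rw [Polynomial.eval_pow]
  exact Nat.pow_le_pow_left (Pp_eval_one a _ ha) k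

theorem v_le (N i : ℕ) : tb N 256 i ≤ 2 ^ 256 := (tb_lt N 256 i).le

/-- Evaluation of `II`. -/
theorem II_eq (a hh : ℕ → ℕ) (ha : ∀ i, a i ≤ 2 ^ 30) (hb : ∀ i, hh i ≤ 2 ^ 34) :
    ((Pp a ^ 49 * Pp v3) * Pp (rv hh)).coeff 1054 = II a hh := by
  unfold II
  refine coeff_dg _ _ ?_ ?_
  · rw [Polynomial.eval_mul, Polynomial.eval_mul, Polynomial.eval_pow, Pp_eval, Pp_eval, Pp_eval]
    have h1 := mm_modEq (mm_modEq (p48_modEq (pv XB a)) (Nat.ModEq.refl (n := MM) (pv XB a)))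
      (mm_modEq (Nat.ModEq.refl (n := MM) (pv XB v3)) (Nat.ModEq.refl (n := MM) (pv XB (rv hh))))
    rw [show pv XB a ^ 48 * pv XB a * (pv XB v3 * pv XB (rv hh)) =
      pv XB a ^ 49 * pv XB v3 * pv XB (rv hh) by ring] at h1
    exact h1
  · rw [Polynomial.eval_mul, Polynomial.eval_mul]
    refine lt_of_le_of_lt (Nat.mul_le_mul (Nat.mul_le_mul (eval_pow_le a ha 49)
      (Pp_eval_one v3 _ fun i => v_le _ i)) (Pp_eval_one (rv hh) _ fun i => hb _)) XBb1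

theorem kd_le (K t : ℕ) : kd K t ≤ 2 ^ 64 := (Nat.mod_lt _ (Nat.two_pow_pos 64)).le

theorem wt0_le (om : ℕ → ℕ) (K K' t : ℕ) (h : ∀ t, om t ≤ 2 ^ 22) : wt0 om K K' t ≤ 2 ^ 150 :=
  (Nat.mul_le_mul (h t) (Nat.mul_le_mul (kd_le K t) (kd_le K' t))).trans (by norm_num)

theorem wt1_le (om : ℕ → ℕ) (K K' t : ℕ) (h : ∀ t, om t ≤ 2 ^ 22) : wt1 om K K' t ≤ 2 ^ 151 :=
  (Nat.mul_le_mul (h t) (Nat.add_le_add (Nat.mul_le_mul (kd_le K t) (kd_le K' _))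
    (Nat.mul_le_mul (kd_le K _) (kd_le K' t)))).trans (by norm_num)

theorem wt2_le (om : ℕ → ℕ) (K K' t : ℕ) (h : ∀ t, om t ≤ 2 ^ 22) : wt2 om K K' t ≤ 2 ^ 150 :=
  (Nat.mul_le_mul (h t) (Nat.mul_le_mul (kd_le K _) (kd_le K' _))).trans (by norm_num)

/-- Evaluation of `OO`. -/
theorem OO_eq (om : ℕ → ℕ) (K K' : ℕ) (a : ℕ → ℕ) (ha : ∀ i, a i ≤ 2 ^ 30)
    (hom : ∀ t, om t ≤ 2 ^ 22) :
    ((Pp a ^ 48 * Pp v0) * Pp (rv (wt0 om K K'))).coeff 1054 +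
      ((Pp a ^ 48 * Pp v1) * Pp (rv (wt1 om K K'))).coeff 1054 +
      ((Pp a ^ 48 * Pp v2) * Pp (rv (wt2 om K K'))).coeff 1054 = OO om K K' a := by
  unfold OO
  rw [← Polynomial.coeff_add, ← Polynomial.coeff_add]
  have e : Pp a ^ 48 * Pp v0 * Pp (rv (wt0 om K K')) + Pp a ^ 48 * Pp v1 * Pp (rv (wt1 om K K')) +
      Pp a ^ 48 * Pp v2 * Pp (rv (wt2 om K K')) = Pp a ^ 48 * (Pp v0 * Pp (rv (wt0 om K K')) +
        Pp v1 * Pp (rv (wt1 om K K')) + Pp v2 * Pp (rv (wt2 om K K'))) := by ring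
  rw [e]
  refine coeff_dg _ _ ?_ ?_
  · simp only [Polynomial.eval_mul, Polynomial.eval_add, Polynomial.eval_pow, Pp_eval]
    exact mm_modEq (p48_modEq (pv XB a)) (((mm_modEq (Nat.ModEq.refl _) (Nat.ModEq.refl _)).add
      (mm_modEq (Nat.ModEq.refl _) (Nat.ModEq.refl _))).add
      (mm_modEq (Nat.ModEq.refl _) (Nat.ModEq.refl _)))
  · rw [Polynomial.eval_mul, Polynomial.eval_add, Polynomial.eval_add, Polynomial.eval_mul,
      Polynomial.eval_mul, Polynomial.eval_mul]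
    refine lt_of_le_of_lt (Nat.mul_le_mul (eval_pow_le a ha 48) (Nat.add_le_add (Nat.add_le_add
      (Nat.mul_le_mul (Pp_eval_one v0 _ fun i => v_le _ i)
        (Pp_eval_one (rv (wt0 om K K')) _ fun i => wt0_le om K K' _ hom))
      (Nat.mul_le_mul (Pp_eval_one v1 _ fun i => v_le _ i)
        (Pp_eval_one (rv (wt1 om K K')) _ fun i => wt1_le om K K' _ hom)))
      (Nat.mul_le_mul (Pp_eval_one v2 _ fun i => v_le _ i)
        (Pp_eval_one (rv (wt2 om K K')) _ fun i => wt2_le om K K' _ hom)))) XBb2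

end Pool.Agent.Helper8.BG
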