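import Mathlib

/-!
# BG, module NUM, part B: Kronecker substitution

Coefficients of products of polynomials with natural coefficients as digits of products of
naturals; balanced packing, suitable for evaluation in the kernel.
-/

set_option autoImplicit false

noncomputable section

namespace Pool.Agent.Helper8.BG

open Finset Polynomial

/-- A coefficient of a polynomial is a digit of its value. -/
theorem kron (b : ℕ) (P : ℕ[X]) (h : P.eval 1 < b) (n : ℕ) : P.coeff n = P.eval b / b ^ n % b := by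
  induction n generalizing P with
  | zero =>
    have h1 := P.divX_mul_X_add
    have h2 : P.eval b = P.divX.eval b * b + P.coeff 0 := by
      conv_lhs => rw [← h1]
      simp
    have h3 : P.eval 1 = P.divX.eval 1 + P.coeff 0 := by
      conv_lhs => rw [← h1]
      simp
    rw [pow_zero, Nat.div_one, h2, Nat.mul_add_mod_self_right, Nat.mod_eq_of_lt (by omega)]
  | succ n ih =>
    have h1 := P.divX_mul_X_add
    have h2 : P.eval b = P.divX.eval b * b + P.coeff 0 := by
      conv_lhs => rw [← h1]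
      simp
    have h3 : P.eval 1 = P.divX.eval 1 + P.coeff 0 := by
      conv_lhs => rw [← h1]
      simp
    have hb : 0 < b := by omega
    have h4 : P.eval b / b = P.divX.eval b := by
      rw [h2, add_comm, Nat.add_mul_div_right _ _ hb, Nat.div_eq_of_lt (by omega), zero_add]
    rw [← coeff_divX, ih P.divX (by omega), pow_succ', ← Nat.div_div_eq_div_mul, h4]

/-- Balanced packing: `∑_{i < 2^n} f (lo + i) b^i`. -/
def pk (b : ℕ) (f : ℕ → ℕ) (n : ℕ) : ℕ → ℕ :=
  Nat.rec (motive := fun _ => ℕ → ℕ) (fun lo => f lo)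
    (fun n ih lo => Nat.add (ih lo)
      (Nat.mul (Nat.pow b (Nat.pow 2 n)) (ih (Nat.add lo (Nat.pow 2 n))))) n

theorem pk_eq (b : ℕ) (f : ℕ → ℕ) (n lo : ℕ) :
    pk b f n lo = ∑ i ∈ range (2 ^ n), f (lo + i) * b ^ i := by
  induction n generalizing lo with
  | zero => simp [pk]
  | succ n ih =>
    have h : pk b f (n + 1) lo = pk b f n lo + b ^ (2 ^ n) * pk b f n (lo + 2 ^ n) := rfl
    rw [h, ih, ih, pow_succ, mul_two, Finset.sum_range_add, Finset.mul_sum]
    congr 1
    refine Finset.sum_congr rfl fun i _ => ?_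
    rw [pow_add, add_assoc]
    ring

/-- cut at 1055 -/
def ct (f : ℕ → ℕ) (i : ℕ) : ℕ := cond (Nat.ble 1055 i) 0 (f i)

theorem ct_lt (f : ℕ → ℕ) {i : ℕ} (h : i < 1055) : ct f i = f i := by
  have : Nat.ble 1055 i = false := by
    rw [Bool.eq_false_iff]
    intro hh
    have := Nat.le_of_ble_eq_true hh
    omega
  rw [ct, this]
  rfl

theorem ct_ge (f : ℕ → ℕ) {i : ℕ} (h : 1055 ≤ i) : ct f i = 0 := by
  have : Nat.ble 1055 i = true := Nat.ble_eq_true_of_le h
  rw [ct, this]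
  rfl

/-- the polynomial with the coefficients `f 0, …, f 1054` -/
def Pp (f : ℕ → ℕ) : ℕ[X] := ∑ i ∈ range 1055, C (f i) * X ^ i

/-- packed value -/
def pv (b : ℕ) (f : ℕ → ℕ) : ℕ := pk b (ct f) 11 0

theorem pv_eq (b : ℕ) (f : ℕ → ℕ) : pv b f = ∑ i ∈ range 1055, f i * b ^ i := by
  rw [pv, pk_eq]
  have h1 : ∑ i ∈ range 1055, f i * b ^ i = ∑ i ∈ range 1055, ct f (0 + i) * b ^ i :=
    Finset.sum_congr rfl fun i hi => by rw [zero_add, ct_lt f (Finset.mem_range.1 hi)]
  rw [h1]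
  symm
  refine Finset.sum_subset (Finset.range_subset_range.2 (by norm_num)) fun i _ hi => ?_
  rw [zero_add, ct_ge f (by simpa using hi), zero_mul]

theorem Pp_eval (b : ℕ) (f : ℕ → ℕ) : (Pp f).eval b = pv b f := by
  rw [pv_eq, Pp, Polynomial.eval_finsetSum]
  refine Finset.sum_congr rfl fun i _ => by simp

theorem Pp_eval_one (f : ℕ → ℕ) (c : ℕ) (h : ∀ i, f i ≤ c) : (Pp f).eval 1 ≤ 1055 * c := by
  rw [Pp, Polynomial.eval_finsetSum]
  refine (Finset.sum_le_card_nsmul _ _ c fun i _ => ?_).trans (by simp)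
  simpa using h i

theorem Pp_coeff (f : ℕ → ℕ) {n : ℕ} (hn : n < 1055) : (Pp f).coeff n = f n := by
  rw [Pp, Polynomial.finsetSum_coeff]
  simp only [Polynomial.coeff_C_mul_X_pow]
  rw [Finset.sum_eq_single n]
  · simp
  · intro b _ hb
    rw [if_neg (Ne.symm hb)]
  · intro h
    exact absurd (Finset.mem_range.2 hn) h

theorem Pp_coeff_ge (f : ℕ → ℕ) {n : ℕ} (hn : 1055 ≤ n) : (Pp f).coeff n = 0 := by
  rw [Pp, Polynomial.finsetSum_coeff]
  simp only [Polynomial.coeff_C_mul_X_pow]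
  refine Finset.sum_eq_zero fun b hb => ?_
  have := Finset.mem_range.1 hb
  rw [if_neg (by omega)]

/-- reversed table -/
def rv (f : ℕ → ℕ) (j : ℕ) : ℕ := f (Nat.sub 1054 j)

theorem Pp_rv (f : ℕ → ℕ) : Pp (rv f) = ∑ t ∈ range 1055, C (f t) * X ^ (1054 - t) := by
  rw [Pp, ← Finset.sum_range_reflect (fun t => C (f t) * X ^ (1054 - t)) 1055]
  refine Finset.sum_congr rfl fun i hi => ?_
  have := Finset.mem_range.1 hi
  have h1 : 1055 - 1 - i = 1054 - i := by omega
  have h2 : 1054 - (1054 - i) = i := by omega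
  rw [h1, h2]
  rfl

/-- a linear functional of the coefficients of `R` is one coefficient of a product -/
theorem coeff_rv (R : ℕ[X]) (f : ℕ → ℕ) (s : ℕ) :
    (R * Pp (rv f)).coeff (1054 + s) = ∑ t ∈ range 1055, f t * R.coeff (t + s) := by
  rw [Pp_rv, Finset.mul_sum, Polynomial.finsetSum_coeff]
  refine Finset.sum_congr rfl fun t ht => ?_
  have := Finset.mem_range.1 ht
  have e : R * (C (f t) * X ^ (1054 - t)) = C (f t) * (R * X ^ (1054 - t)) := by ring
  rw [e, Polynomial.coeff_C_mul, Polynomial.coeff_mul_X_pow', if_pos (by omega)]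
  congr 2
  omega

/-- the base -/
@[irreducible] def XB : ℕ := Nat.pow 2 2400

/-- `XB ^ 1054` -/
@[irreducible] def ML : ℕ := Nat.pow XB 1054

/-- `XB ^ 1055` -/
@[irreducible] def MM : ℕ := Nat.mul ML XB

theorem ML_eq : ML = XB ^ 1054 := by
  unfold ML
  rfl

theorem MM_eq : MM = ML * XB := by
  unfold MM
  rfl

/-- truncated product -/
def mm (a b : ℕ) : ℕ := Nat.mod (Nat.mul a b) MM

theorem mm_modEq {a b c d : ℕ} (h1 : a ≡ c [MOD MM]) (h2 : b ≡ d [MOD MM]) :
    mm a b ≡ c * d [MOD MM] :=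
  (Nat.mod_modEq (a * b) MM).trans (h1.mul h2)

/-- truncated cube -/
def p3 (N : ℕ) : ℕ := mm (mm N N) N

/-- truncated square -/
def p2 (N : ℕ) : ℕ := mm N N

theorem p3_modEq (N : ℕ) : p3 N ≡ N ^ 3 [MOD MM] := by
  have := mm_modEq (mm_modEq (Nat.ModEq.refl (n := MM) N) (Nat.ModEq.refl N)) (Nat.ModEq.refl N)
  rw [show N * N * N = N ^ 3 by ring] at this
  exact this

theorem p2_modEq {a c : ℕ} (h : a ≡ c [MOD MM]) : p2 a ≡ c ^ 2 [MOD MM] := by
  have := mm_modEq h h
  rw [show c * c = c ^ 2 by ring] at this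
  exact this

/-- truncated power 48 -/
def p48 (N : ℕ) : ℕ := p2 (p2 (p2 (p2 (p3 N))))

theorem p48_modEq (N : ℕ) : p48 N ≡ N ^ 48 [MOD MM] := by
  have := p2_modEq (p2_modEq (p2_modEq (p2_modEq (p3_modEq N))))
  rw [show ((((N ^ 3) ^ 2) ^ 2) ^ 2) ^ 2 = N ^ 48 by ring] at this
  exact this

/-- the digit 1054 -/
def dg (x : ℕ) : ℕ := Nat.div (Nat.mod x MM) ML

theorem dg_eq (x : ℕ) : dg x = x / XB ^ 1054 % XB := by
  change x % MM / ML = _
  rw [MM_eq, Nat.mod_mul_right_div_self, ML_eq]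

theorem dg_congr {x y : ℕ} (h : x ≡ y [MOD MM]) : dg x = dg y := by
  change x % MM / ML = y % MM / ML
  rw [h]

/-- The main evaluation lemma. -/
theorem coeff_dg (P : ℕ[X]) (x : ℕ) (hx : x ≡ P.eval XB [MOD MM]) (h : P.eval 1 < XB) :
    P.coeff 1054 = dg x := by
  rw [kron XB P h, dg_congr hx, dg_eq]

end Pool.Agent.Helper8.BG
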